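import Pool.Agent.H59.L.S8.Y506.RG.Stm
import Pool.Agent.H59.L.S8.H212R2.KLS.T1

/-!
# Job 6245 (RG-REG), part A: log-concave functions of bounded support
-/

set_option autoImplicit false

open MeasureTheory Set Filter Topology
open scoped ENNReal

namespace Pool.Agent.Y333.RG

open Pool.Agent.Y506.RG

/-- log-concavity bounds a value by two other values -/
theorem bd {h : ℝ → ℝ} (h0 : ∀ s, 0 ≤ h s)
    (lc : ∀ x y t : ℝ, 0 < t → t < 1 → h x ^ (1 - t) * h y ^ t ≤ h ((1 - t) * x + t * y))
    {u v x t t0 : ℝ} (ht : 0 < t) (ht1 : t < 1) (ht0 : 0 < t0) (htt : t0 ≤ t)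
    (hv : (1 - t) * u + t * x = v) (hu : 0 < h u) (hv0 : 0 < h v) :
    h x ≤ Real.exp (Real.log (h u) + max 0 (Real.log (h v) - Real.log (h u)) / t0) := by
  rcases (h0 x).eq_or_lt with hx | hx
  · rw [← hx]
    exact (Real.exp_pos _).le
  rw [← Real.log_le_iff_le_exp hx]
  have h1 := lc u x t ht ht1
  rw [hv] at h1
  have h2 := Real.log_le_log (by positivity) h1
  rw [Real.log_mul (Real.rpow_pos_of_pos hu _).ne' (Real.rpow_pos_of_pos hx _).ne',
    Real.log_rpow hu, Real.log_rpow hx] at h2
  set M := max 0 (Real.log (h v) - Real.log (h u)) with hM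
  have hM0 : 0 ≤ M := le_max_left _ _
  have hM1 : Real.log (h v) - Real.log (h u) ≤ M := le_max_right _ _
  have h3 : Real.log (h x) - Real.log (h u) ≤ M / t0 := by
    rw [le_div_iff₀ ht0]
    rcases le_total (Real.log (h x) - Real.log (h u)) 0 with h4 | h4
    · nlinarith
    · nlinarith
  linarith

theorem two_pts {h : ℝ → ℝ} (h0 : ∀ s, 0 ≤ h s) (hi : 0 < ∫ s, h s) :
    ∃ p q, p < q ∧ 0 < h p ∧ 0 < h q := by
  by_contra hc
  push Not at hc
  have hs : (Function.support h).Subsingleton := by
    intro p hp q hq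
    have hp' : 0 < h p := lt_of_le_of_ne (h0 p) (Ne.symm hp)
    have hq' : 0 < h q := lt_of_le_of_ne (h0 q) (Ne.symm hq)
    rcases lt_trichotomy p q with h1 | h1 | h1
    · exact absurd hq' (not_lt.2 (hc p q h1 hp'))
    · exact h1
    · exact absurd hp' (not_lt.2 (hc q p h1 hq'))
  have h1 : volume (Function.support h) = 0 := hs.measure_zero _
  have h2 : h =ᵐ[volume] 0 := by
    rw [Filter.EventuallyEq, ae_iff]
    exact h1
  rw [integral_congr_ae h2] at hi
  simp at hi

theorem bounded {h : ℝ → ℝ} {R : ℝ} (hl : LC1 h) (hR : 0 < R) (hs : ∀ s, R < |s| → h s = 0)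
    (hi : 0 < ∫ s, h s) : ∃ B, 0 < B ∧ ∀ s, h s ≤ B := by
  obtain ⟨p, q, hpq, hp, hq⟩ := two_pts hl.nonneg hi
  have hpR : |p| ≤ R := by
    by_contra hc
    exact hp.ne' (hs p (not_le.1 hc))
  have hqR : |q| ≤ R := by
    by_contra hc
    exact hq.ne' (hs q (not_le.1 hc))
  have hm : 0 < h ((p + q) / 2) := by
    have h1 := hl.lc p q (1 / 2) (by norm_num) (by norm_num)
    have h2 : 0 < h p ^ (1 - 1 / 2 : ℝ) * h q ^ (1 / 2 : ℝ) := by positivity
    have e : (1 - 1 / 2) * p + 1 / 2 * q = (p + q) / 2 := by ring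
    rw [e] at h1
    exact lt_of_lt_of_le h2 h1
  set m := (p + q) / 2 with hmd
  set t0 := (q - p) / (4 * R) with ht0
  have ht0p : 0 < t0 := by
    have : 0 < q - p := by linarith
    positivity
  refine ⟨Real.exp (Real.log (h q) + max 0 (Real.log (h m) - Real.log (h q)) / t0) +
    Real.exp (Real.log (h p) + max 0 (Real.log (h m) - Real.log (h p)) / t0) + h m, by positivity,
    fun s => ?_⟩
  have e1 := Real.exp_pos (Real.log (h q) + max 0 (Real.log (h m) - Real.log (h q)) / t0)
  have e2 := Real.exp_pos (Real.log (h p) + max 0 (Real.log (h m) - Real.log (h p)) / t0)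
  rcases lt_or_ge R |s| with h1 | h1
  · rw [hs s h1]
    positivity
  have hsR := abs_le.1 h1
  have hpR' := abs_le.1 hpR
  have hqR' := abs_le.1 hqR
  rcases lt_trichotomy s m with h2 | h2 | h2
  · have hd : 0 < q - s := by
      rw [hmd] at h2
      linarith
    have h3 : h s ≤ Real.exp (Real.log (h q) + max 0 (Real.log (h m) - Real.log (h q)) / t0) := by
      refine bd hl.nonneg hl.lc (t := (q - m) / (q - s)) ?_ ?_ ht0p ?_ ?_ hq hm
      · have : 0 < q - m := by
          rw [hmd]
          linarith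
        positivity
      · rw [div_lt_one hd]
        linarith
      · rw [ht0, div_le_div_iff₀ (by positivity) hd]
        have h4 : q - m = (q - p) / 2 := by
          rw [hmd]
          ring
        rw [h4]
        nlinarith
      · field_simp
        ring
    linarith
  · rw [h2]
    linarith
  · have hd : 0 < s - p := by
      rw [hmd] at h2
      linarith
    have h3 : h s ≤ Real.exp (Real.log (h p) + max 0 (Real.log (h m) - Real.log (h p)) / t0) := by
      refine bd hl.nonneg hl.lc (t := (m - p) / (s - p)) ?_ ?_ ht0p ?_ ?_ hp hm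
      · have : 0 < m - p := by
          rw [hmd]
          linarith
        positivity
      · rw [div_lt_one hd]
        linarith
      · rw [ht0, div_le_div_iff₀ (by positivity) hd]
        have h4 : m - p = (q - p) / 2 := by
          rw [hmd]
          ring
        rw [h4]
        nlinarith
      · field_simp
        ring
    linarith

/-- continuity off the end points -/
theorem conts {h : ℝ → ℝ} {R : ℝ} (hl : LC1 h) (hs : ∀ s, R < |s| → h s = 0)
    (hi : 0 < ∫ s, h s) : ∃ E : Set ℝ, E.Finite ∧ ∀ s, s ∉ E → ContinuousAt h s := by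
  obtain ⟨p, q, hpq, hp, hq⟩ := two_pts hl.nonneg hi
  set P : Set ℝ := {s | 0 < h s} with hP
  have hne : P.Nonempty := ⟨p, hp⟩
  have hb : BddBelow P := by
    refine ⟨-R, fun x hx => ?_⟩
    by_contra hc
    have h1 : R < |x| := lt_of_lt_of_le (by linarith [not_le.1 hc]) (neg_le_abs x)
    exact (hx : 0 < h x).ne' (hs x h1)
  have ha : BddAbove P := by
    refine ⟨R, fun x hx => ?_⟩
    by_contra hc
    have h1 : R < |x| := lt_of_lt_of_le (not_le.1 hc) (le_abs_self x)
    exact (hx : 0 < h x).ne' (hs x h1)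
  refine ⟨{sInf P, sSup P}, by simp, fun s hsE => ?_⟩
  have hz : ∀ x, x ∉ P → h x = 0 := fun x hx => le_antisymm (not_lt.1 hx) (hl.nonneg x)
  simp only [mem_insert_iff, mem_singleton_iff, not_or] at hsE
  rcases lt_or_gt_of_ne hsE.1 with h1 | h1
  · have h2 : h =ᶠ[𝓝 s] fun _ => 0 := by
      filter_upwards [eventually_lt_nhds h1] with x hx
      exact hz x fun hxP => absurd (csInf_le hb hxP) (not_le.2 hx)
    exact (continuousAt_const.congr h2.symm)
  rcases lt_or_gt_of_ne hsE.2 with h2 | h2
  swap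
  · have h3 : h =ᶠ[𝓝 s] fun _ => 0 := by
      filter_upwards [eventually_gt_nhds h2] with x hx
      exact hz x fun hxP => absurd (le_csSup ha hxP) (not_le.2 hx)
    exact (continuousAt_const.congr h3.symm)
  obtain ⟨a, haP, has⟩ := exists_lt_of_csInf_lt hne h1
  obtain ⟨b, hbP, hbs⟩ := exists_lt_of_lt_csSup hne h2
  have hpos : ∀ x ∈ Ioo a b, 0 < h x := by
    intro x hx
    have hd : 0 < b - a := by linarith [hx.1, hx.2]
    have h3 := hl.lc a b ((x - a) / (b - a)) (div_pos (by linarith [hx.1]) hd)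
      (by rw [div_lt_one hd]; linarith [hx.2])
    have e : (1 - (x - a) / (b - a)) * a + (x - a) / (b - a) * b = x := by
      field_simp
      ring
    rw [e] at h3
    exact lt_of_lt_of_le (mul_pos (Real.rpow_pos_of_pos haP _) (Real.rpow_pos_of_pos hbP _)) h3
  have hc : ConcaveOn ℝ (Ioo a b) fun x => Real.log (h x) := by
    refine ⟨convex_Ioo a b, fun x hx y hy u v hu hv huv => ?_⟩
    rcases hu.eq_or_lt with hu0 | hu0
    · have : v = 1 := by linarith
      rw [← hu0, this]
      simp
    rcases hv.eq_or_lt with hv0 | hv0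
    · have : u = 1 := by linarith
      rw [← hv0, this]
      simp
    have h3 := hl.lc x y v hv0 (by linarith)
    have e : 1 - v = u := by linarith
    rw [e] at h3
    have h4 := Real.log_le_log (mul_pos (Real.rpow_pos_of_pos (hpos x hx) _)
      (Real.rpow_pos_of_pos (hpos y hy) _)) h3
    rw [Real.log_mul (Real.rpow_pos_of_pos (hpos x hx) _).ne'
      (Real.rpow_pos_of_pos (hpos y hy) _).ne', Real.log_rpow (hpos x hx),
      Real.log_rpow (hpos y hy)] at h4
    exact h4
  have h5 := hc.continuousOn isOpen_Ioo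
  have h6 : ContinuousAt (fun x => Real.log (h x)) s :=
    h5.continuousAt (Ioo_mem_nhds has hbs)
  have h7 : ContinuousAt (fun x => Real.exp (Real.log (h x))) s := h6.rexp
  refine h7.congr ?_
  filter_upwards [Ioo_mem_nhds has hbs] with x hx
  exact Real.exp_log (hpos x hx)

end Pool.Agent.Y333.RG
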